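import Pool.Agent.X297.HR.Spec

open scoped InnerProductSpace ComplexOrder

namespace Pool.Agent.X297.HR

variable {H : Type*} [NormedAddCommGroup H] [InnerProductSpace ℂ H] [CompleteSpace H]
variable {ι : Type*} [Fintype ι]

/-- `∑ᵢ Tᵢ* Tᵢ` -/
noncomputable def gram (T : ι → H →L[ℂ] H) : H →L[ℂ] H := ∑ i, star (T i) * T i

/-- every `Tᵢ` commutes with `∑ⱼ Tⱼ* Tⱼ` -/
def SphericallyQuasinormal (T : ι → H →L[ℂ] H) : Prop :=
  ∀ i, T i * gram T = gram T * T i

/-- the operator matrix with entries `[Tⱼ*, Tᵢ]` is positive -/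
def JointlyHyponormal (T : ι → H →L[ℂ] H) : Prop :=
  ∀ x : ι → H, 0 ≤ ∑ i, ∑ j, ⟪x i, (star (T j) * T i - T i * star (T j)) (x j)⟫_ℂ

/-- the tuple of all words of length `n` -/
noncomputable def tuplePow (T : ι → H →L[ℂ] H) (n : ℕ) : (Fin n → ι) → H →L[ℂ] H :=
  fun w => (List.ofFn fun k => T (w k)).prod

/-- `X ↦ ∑ᵢ Tᵢ* X Tᵢ` -/
noncomputable def Th (T : ι → H →L[ℂ] H) : (H →L[ℂ] H) →ₗ[ℂ] (H →L[ℂ] H) :=
  ∑ i, (LinearMap.mulLeft ℂ (star (T i))) ∘ₗ (LinearMap.mulRight ℂ (T i))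

lemma Th_apply (T : ι → H →L[ℂ] H) (X : H →L[ℂ] H) : Th T X = ∑ i, star (T i) * X * T i := by
  simp [Th, LinearMap.sum_apply, mul_assoc]

lemma Th_one (T : ι → H →L[ℂ] H) : Th T 1 = gram T := by
  simp [Th_apply, gram]

lemma inner_star (X : H →L[ℂ] H) (x y : H) : ⟪x, (star X) y⟫_ℂ = ⟪X x, y⟫_ℂ :=
  ContinuousLinearMap.adjoint_inner_right X x y

lemma sum_app {κ : Type*} (s : Finset κ) (F : κ → H →L[ℂ] H) (x : H) :
    (∑ i ∈ s, F i) x = ∑ i ∈ s, F i x := by
  simp

lemma Th_quad (T : ι → H →L[ℂ] H) (X : H →L[ℂ] H) (x : H) :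
    (⟪x, Th T X x⟫_ℂ).re = ∑ i, (⟪T i x, X (T i x)⟫_ℂ).re := by
  rw [Th_apply, sum_app, inner_sum, Complex.re_sum]
  refine Finset.sum_congr rfl fun i _ => ?_
  have : (star (T i) * X * T i) x = (star (T i)) (X (T i x)) := rfl
  rw [this, inner_star]

lemma Th_pos (T : ι → H →L[ℂ] H) (X : H →L[ℂ] H) (hX : ∀ x, 0 ≤ (⟪x, X x⟫_ℂ).re) (k : ℕ) :
    ∀ x, 0 ≤ (⟪x, ((Th T) ^ k) X x⟫_ℂ).re := by
  induction k with
  | zero => simpa using hX
  | succ k ih =>
    intro x
    rw [pow_succ']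
    change 0 ≤ (⟪x, Th T (((Th T) ^ k) X) x⟫_ℂ).re
    rw [Th_quad]
    exact Finset.sum_nonneg fun i _ => ih (T i x)

lemma Th_star (T : ι → H →L[ℂ] H) (X : H →L[ℂ] H) (hX : IsSelfAdjoint X) :
    IsSelfAdjoint (Th T X) := by
  rw [Th_apply, IsSelfAdjoint, star_sum]
  refine Finset.sum_congr rfl fun i _ => ?_
  simp [star_mul, hX.star_eq, mul_assoc]

lemma gram_sa (T : ι → H →L[ℂ] H) : IsSelfAdjoint (gram T) := by
  rw [← Th_one]; exact Th_star T 1 (IsSelfAdjoint.one _)

/-- the moments -/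
noncomputable def mom (T : ι → H →L[ℂ] H) (x : H) (k : ℕ) : ℝ := (⟪x, ((Th T) ^ k) 1 x⟫_ℂ).re

lemma mom_nonneg (T : ι → H →L[ℂ] H) (x : H) (k : ℕ) : 0 ≤ mom T x k := by
  apply Th_pos
  intro y
  have : (⟪y, (1 : H →L[ℂ] H) y⟫_ℂ).re = ‖y‖ ^ 2 := by
    rw [show (1 : H →L[ℂ] H) y = y from rfl, inner_self_eq_norm_sq_to_K]
    norm_cast
  rw [this]; positivity

/-- `Q₂ - Q₁²` -/
noncomputable def NN (T : ι → H →L[ℂ] H) : H →L[ℂ] H := Th T (gram T) - gram T * gram T

/-- the commutator `[∑ Tⱼ*Tⱼ, Tᵢ]` -/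
noncomputable def DD (T : ι → H →L[ℂ] H) (i : ι) : H →L[ℂ] H := gram T * T i - T i * gram T

lemma form_eq (T : ι → H →L[ℂ] H) (hcomm : ∀ i j, T i * T j = T j * T i) (x : H) (y : ι → H) :
    ∑ i, ∑ j, ⟪y i, (star (T j) * T i - T i * star (T j)) (T j x)⟫_ℂ
      = ∑ i, ⟪y i, DD T i x⟫_ℂ := by
  refine Finset.sum_congr rfl fun i _ => ?_
  rw [← inner_sum]
  congr 1
  have : DD T i = ∑ j, (star (T j) * T i - T i * star (T j)) * T j := by
    rw [DD, gram, Finset.sum_mul, Finset.mul_sum, ← Finset.sum_sub_distrib]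
    refine Finset.sum_congr rfl fun j _ => ?_
    rw [sub_mul, mul_assoc, mul_assoc, mul_assoc, hcomm i j]
  rw [this, sum_app]
  rfl

lemma NN_quad (T : ι → H →L[ℂ] H) (x : H) :
    ∑ i, ⟪T i x, DD T i x⟫_ℂ = ⟪x, NN T x⟫_ℂ := by
  have : NN T = ∑ i, star (T i) * DD T i := by
    rw [NN, Th_apply]
    nth_rw 2 [gram]
    rw [Finset.sum_mul, ← Finset.sum_sub_distrib]
    refine Finset.sum_congr rfl fun j _ => ?_
    rw [DD, mul_sub, mul_assoc, mul_assoc]
  rw [this, sum_app, inner_sum]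
  refine Finset.sum_congr rfl fun i _ => ?_
  have : (star (T i) * DD T i) x = (star (T i)) (DD T i x) := rfl
  rw [this, inner_star]

lemma NN_nonneg_quad (T : ι → H →L[ℂ] H) (hcomm : ∀ i j, T i * T j = T j * T i)
    (hyp : JointlyHyponormal T) (x : H) : 0 ≤ (⟪x, NN T x⟫_ℂ).re := by
  have := hyp (fun i => T i x)
  rw [form_eq T hcomm, NN_quad] at this
  exact (Complex.le_def.1 this).1

lemma NN_nonneg (T : ι → H →L[ℂ] H) (hcomm : ∀ i j, T i * T j = T j * T i)
    (hyp : JointlyHyponormal T) : 0 ≤ NN T := by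
  rw [ContinuousLinearMap.nonneg_iff_isPositive, ContinuousLinearMap.isPositive_def']
  refine ⟨?_, fun x => ?_⟩
  · apply IsSelfAdjoint.sub (Th_star T _ (gram_sa T))
    have := gram_sa T
    rw [IsSelfAdjoint, star_mul, this.star_eq]
  · have := NN_nonneg_quad T hcomm hyp x
    rw [ContinuousLinearMap.reApplyInnerSelf_apply, inner_re_symm]
    exact this

/-- log-convexity of the moments -/
lemma mom_logconvex (T : ι → H →L[ℂ] H) (hcomm : ∀ i j, T i * T j = T j * T i)
    (hyp : JointlyHyponormal T) (x : H) (k : ℕ) :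
    mom T x (k + 1) ^ 2 ≤ mom T x k * mom T x (k + 2) := by
  set G := gram T with hG
  have e1 : ((Th T) ^ (k + 1)) 1 = ((Th T) ^ k) G := by
    rw [pow_succ]; change ((Th T) ^ k) (Th T 1) = _; rw [Th_one]
  have e2 : ((Th T) ^ (k + 2)) 1 = ((Th T) ^ k) (Th T G) := by
    rw [show k + 2 = k + 1 + 1 by ring, pow_succ, pow_succ]
    change ((Th T) ^ k) (Th T (Th T 1)) = _; rw [Th_one]
  set a : ℝ := (⟪x, ((Th T) ^ k) (G * G) x⟫_ℂ).re with ha
  have h1 : a ≤ mom T x (k + 2) := by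
    have := Th_pos T (NN T) (NN_nonneg_quad T hcomm hyp) k x
    rw [NN, map_sub] at this
    have e : (((Th T) ^ k) (Th T (gram T)) - ((Th T) ^ k) (gram T * gram T)) x
      = ((Th T) ^ k) (Th T (gram T)) x - ((Th T) ^ k) (gram T * gram T) x := rfl
    rw [e, inner_sub_right, Complex.sub_re] at this
    rw [mom, e2]
    linarith
  have h2 : ∀ t : ℝ, 0 ≤ a - 2 * t * mom T x (k + 1) + t ^ 2 * mom T x k := by
    intro t
    have hsa : IsSelfAdjoint (G - (t : ℂ) • (1 : H →L[ℂ] H)) := by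
      apply IsSelfAdjoint.sub (gram_sa T)
      rw [IsSelfAdjoint, star_smul]
      simp
    have hpos : ∀ y, 0 ≤ (⟪y, ((G - (t : ℂ) • (1 : H →L[ℂ] H))
        * (G - (t : ℂ) • (1 : H →L[ℂ] H))) y⟫_ℂ).re := by
      intro y
      have e : ((G - (t : ℂ) • (1 : H →L[ℂ] H)) * (G - (t : ℂ) • (1 : H →L[ℂ] H))) y
        = star (G - (t : ℂ) • (1 : H →L[ℂ] H)) ((G - (t : ℂ) • (1 : H →L[ℂ] H)) y) := by
        rw [hsa.star_eq]; rfl
      rw [e, inner_star]
      exact inner_self_nonneg (𝕜 := ℂ)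
    have := Th_pos T _ hpos k x
    have e3 : (G - (t : ℂ) • (1 : H →L[ℂ] H)) * (G - (t : ℂ) • (1 : H →L[ℂ] H))
        = G * G - ((2 * t : ℝ) : ℂ) • G + ((t ^ 2 : ℝ) : ℂ) • (1 : H →L[ℂ] H) := by
      rw [sub_mul, mul_sub, mul_sub]
      simp only [smul_mul_assoc, mul_smul_comm, one_mul, mul_one, smul_smul]
      push_cast
      rw [two_mul, add_smul, pow_two]
      abel
    rw [e3, map_add, map_sub, map_smul, map_smul] at this
    have e4 : (((Th T) ^ k) (G * G) - ((2 * t : ℝ) : ℂ) • ((Th T) ^ k) G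
        + ((t ^ 2 : ℝ) : ℂ) • ((Th T) ^ k) 1) x
        = ((Th T) ^ k) (G * G) x - ((2 * t : ℝ) : ℂ) • (((Th T) ^ k) G x)
        + ((t ^ 2 : ℝ) : ℂ) • (((Th T) ^ k) 1 x) := rfl
    rw [e4, inner_add_right, inner_sub_right, inner_smul_right, inner_smul_right,
      Complex.add_re, Complex.sub_re, Complex.re_ofReal_mul, Complex.re_ofReal_mul] at this
    rw [mom, mom, e1]
    exact this
  have h3 : mom T x (k + 1) ^ 2 ≤ a * mom T x k := by
    have hm := mom_nonneg T x k
    rcases hm.eq_or_lt with h0 | h0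
    · rw [← h0] at h2 ⊢
      have hz : mom T x (k + 1) = 0 := by
        by_contra hne
        have h5 := h2 ((a + 1) / (2 * mom T x (k + 1)))
        have : 2 * ((a + 1) / (2 * mom T x (k + 1))) * mom T x (k + 1) = a + 1 := by
          field_simp
        rw [this] at h5
        linarith
      rw [hz]; simp
    · have h5 := h2 (mom T x (k + 1) / mom T x k)
      have : a - 2 * (mom T x (k + 1) / mom T x k) * mom T x (k + 1)
          + (mom T x (k + 1) / mom T x k) ^ 2 * mom T x k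
          = a - mom T x (k + 1) ^ 2 / mom T x k := by
        field_simp; ring
      rw [this, sub_nonneg, div_le_iff₀ h0] at h5
      exact h5
  calc _ ≤ a * mom T x k := h3
    _ ≤ mom T x (k + 2) * mom T x k := mul_le_mul_of_nonneg_right h1 (mom_nonneg _ _ _)
    _ = _ := mul_comm _ _

/-- a log-convex nonnegative sequence is positive from `1` on, or zero from `1` on -/
lemma pos_of_pos (f : ℕ → ℝ) (h0 : ∀ k, 0 ≤ f k) (hc : ∀ k, f (k + 1) ^ 2 ≤ f k * f (k + 2))
    (h1 : 0 < f 1) (k : ℕ) : 0 < f k ∧ 0 < f (k + 1) := by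
  induction k with
  | zero =>
    refine ⟨?_, h1⟩
    rcases (h0 0).eq_or_lt with h | h
    · have := hc 0
      rw [← h, zero_mul] at this
      simp only [zero_add] at this
      nlinarith
    · exact h
  | succ k ih =>
    refine ⟨ih.2, ?_⟩
    rcases (h0 (k + 2)).eq_or_lt with h | h
    · have := hc k
      rw [← h, mul_zero] at this
      nlinarith [ih.2]
    · exact h

lemma cross (f : ℕ → ℝ) (hpos : ∀ k, 0 < f k) (hc : ∀ k, f (k + 1) ^ 2 ≤ f k * f (k + 2))
    (a b j : ℕ) (hab : a ≤ b) : f (a + j) * f b ≤ f a * f (b + j) := by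
  have hmono : Monotone fun k => f (k + 1) / f k := by
    apply monotone_nat_of_le_succ
    intro k
    rw [div_le_div_iff₀ (hpos _) (hpos _)]
    have := hc k
    nlinarith
  induction j with
  | zero => simp [mul_comm]
  | succ j ih =>
    have h1 : f (a + j + 1) / f (a + j) ≤ f (b + j + 1) / f (b + j) := hmono (by omega)
    have e1 : f (a + (j + 1)) = f (a + j + 1) / f (a + j) * f (a + j) := by
      rw [div_mul_cancel₀ _ (hpos _).ne']; rfl
    have e2 : f (b + (j + 1)) = f (b + j + 1) / f (b + j) * f (b + j) := by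
      rw [div_mul_cancel₀ _ (hpos _).ne']; rfl
    rw [e1, e2]
    have hb : 0 ≤ f (b + j + 1) / f (b + j) := (div_pos (hpos _) (hpos _)).le
    calc f (a + j + 1) / f (a + j) * f (a + j) * f b
        = f (a + j + 1) / f (a + j) * (f (a + j) * f b) := by ring
      _ ≤ f (b + j + 1) / f (b + j) * (f (a + j) * f b) :=
          mul_le_mul_of_nonneg_right h1 (mul_pos (hpos _) (hpos _)).le
      _ ≤ f (b + j + 1) / f (b + j) * (f a * f (b + j)) := mul_le_mul_of_nonneg_left ih hb
      _ = _ := by ring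

lemma logconv (f : ℕ → ℝ) (h0 : ∀ k, 0 ≤ f k) (hc : ∀ k, f (k + 1) ^ 2 ≤ f k * f (k + 2))
    (n : ℕ) (hn : 1 ≤ n) : f 2 * f n ^ 2 ≤ f 1 ^ 2 * f (2 * n) := by
  rcases (h0 1).eq_or_lt with h | h
  · have h2 := hc 1
    rw [← h, zero_mul] at h2
    simp only [Nat.reduceAdd] at h2
    have : f 2 = 0 := by nlinarith [h0 2]
    rw [this, ← h]; simp
  · have hpos : ∀ k, 0 < f k := fun k => (pos_of_pos f h0 hc h k).1
    have c1 := cross f hpos hc 1 n 1 hn
    have c2 := cross f hpos hc 1 (n + 1) (n - 1) (by omega)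
    rw [show 1 + (n - 1) = n by omega, show n + 1 + (n - 1) = 2 * n by omega] at c2
    simp only [Nat.reduceAdd] at c1
    calc f 2 * f n ^ 2 = (f 2 * f n) * f n := by ring
      _ ≤ (f 1 * f (n + 1)) * f n := mul_le_mul_of_nonneg_right c1 (h0 n)
      _ = f 1 * (f n * f (n + 1)) := by ring
      _ ≤ f 1 * (f 1 * f (2 * n)) := mul_le_mul_of_nonneg_left c2 (h0 1)
      _ = _ := by ring

/-- `Θⁿ(X) = ∑_w T_w* X T_w` -/
lemma Th_pow (T : ι → H →L[ℂ] H) (n : ℕ) (X : H →L[ℂ] H) :
    ((Th T) ^ n) X = ∑ w : Fin n → ι, star (tuplePow T n w) * X * tuplePow T n w := by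
  induction n generalizing X with
  | zero => simp [tuplePow]
  | succ n ih =>
    rw [pow_succ]
    change ((Th T) ^ n) (Th T X) = _
    rw [ih, ← (Fin.consEquiv fun _ : Fin (n + 1) => ι).sum_comp, Fintype.sum_prod_type_right]
    refine Finset.sum_congr rfl fun w _ => ?_
    rw [Th_apply, Finset.mul_sum, Finset.sum_mul]
    refine Finset.sum_congr rfl fun i _ => ?_
    have : tuplePow T (n + 1) ((Fin.consEquiv fun _ : Fin (n + 1) => ι) (i, w))
        = T i * tuplePow T n w := by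
      simp [tuplePow, List.ofFn_succ, Fin.consEquiv]
    rw [this, star_mul]
    simp only [mul_assoc]

lemma gram_pow (T : ι → H →L[ℂ] H) (n : ℕ) : gram (tuplePow T n) = ((Th T) ^ n) 1 := by
  rw [Th_pow, gram]; simp

/-- the main identity: `Q₂ = Q₁²` -/
theorem NN_eq_zero (T : ι → H →L[ℂ] H) (hcomm : ∀ i j, T i * T j = T j * T i)
    (hyp : JointlyHyponormal T) (n : ℕ) (hn : 1 ≤ n)
    (hq : SphericallyQuasinormal (tuplePow T n)) : NN T = 0 := by
  set A : H →L[ℂ] H := ((Th T) ^ n) 1 with hA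
  have hAg : A = gram (tuplePow T n) := (gram_pow T n).symm
  have hAsa : IsSelfAdjoint A := by rw [hAg]; exact gram_sa _
  have hApos : 0 ≤ A := by
    rw [hAg, gram]
    exact Finset.sum_nonneg fun i _ => star_mul_self_nonneg _
  have hAA : ((Th T) ^ (2 * n)) 1 = A * A := by
    rw [two_mul, pow_add]
    change ((Th T) ^ n) (((Th T) ^ n) 1) = _
    rw [← hA, Th_pow]
    conv_rhs => rw [hAg]
    nth_rw 1 [gram]
    rw [Finset.sum_mul]
    refine Finset.sum_congr rfl fun w _ => ?_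
    have := hq w
    rw [← hAg] at this ⊢
    rw [mul_assoc, mul_assoc, this]
  obtain ⟨S, hS⟩ := CStarAlgebra.nonneg_iff_eq_star_mul_self.1 (NN_nonneg T hcomm hyp)
  have hSn : ∀ x, ‖S x‖ ^ 2 = (⟪x, NN T x⟫_ℂ).re := by
    intro x
    have : (star S * S) x = (star S) (S x) := rfl
    rw [hS, this, inner_star, inner_self_eq_norm_sq_to_K]
    norm_cast
  have key : ∀ x : H, ‖S x‖ ^ 2 * (⟪x, A x⟫_ℂ).re ^ 2 ≤
      ‖gram T‖ ^ 2 * ‖x‖ ^ 2 * (‖x‖ ^ 2 * ‖A x‖ ^ 2 - (⟪x, A x⟫_ℂ).re ^ 2) := by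
    intro x
    have h1 := logconv (mom T x) (mom_nonneg T x) (mom_logconvex T hcomm hyp x) n hn
    have m2 : mom T x 2 = ‖S x‖ ^ 2 + ‖gram T x‖ ^ 2 := by
      have e : ((Th T) ^ 2) 1 = NN T + gram T * gram T := by
        rw [pow_two]; change Th T (Th T 1) = _; rw [Th_one, NN]; abel
      have e' : (NN T + gram T * gram T) x = NN T x + star (gram T) (gram T x) := by
        rw [(gram_sa T).star_eq]; rfl
      rw [mom, e, e', inner_add_right, Complex.add_re, ← hSn, inner_star,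
        inner_self_eq_norm_sq_to_K]
      norm_cast
    have mn : mom T x n = (⟪x, A x⟫_ℂ).re := rfl
    have m2n : mom T x (2 * n) = ‖A x‖ ^ 2 := by
      have e' : (A * A) x = star A (A x) := by rw [hAsa.star_eq]; rfl
      rw [mom, hAA, e', inner_star, inner_self_eq_norm_sq_to_K]
      norm_cast
    have m1 : mom T x 1 ^ 2 ≤ ‖x‖ ^ 2 * ‖gram T x‖ ^ 2 := by
      rw [← mul_pow]
      refine pow_le_pow_left₀ (mom_nonneg T x 1) ?_ 2
      rw [mom, pow_one, Th_one]
      exact (Complex.re_le_norm _).trans (norm_inner_le_norm _ _)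
    have hcs : (⟪x, A x⟫_ℂ).re ^ 2 ≤ ‖x‖ ^ 2 * ‖A x‖ ^ 2 := by
      rw [← mul_pow, ← mn]
      refine pow_le_pow_left₀ (mom_nonneg T x n) ?_ 2
      rw [mn]
      exact (Complex.re_le_norm _).trans (norm_inner_le_norm _ _)
    have hG : ‖gram T x‖ ^ 2 ≤ ‖gram T‖ ^ 2 * ‖x‖ ^ 2 := by
      rw [← mul_pow]
      exact pow_le_pow_left₀ (norm_nonneg _) ((gram T).le_opNorm x) 2
    rw [m2, mn, m2n] at h1
    have h2 : (‖S x‖ ^ 2 + ‖gram T x‖ ^ 2) * (⟪x, A x⟫_ℂ).re ^ 2
        ≤ (‖x‖ ^ 2 * ‖gram T x‖ ^ 2) * ‖A x‖ ^ 2 :=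
      h1.trans (mul_le_mul_of_nonneg_right m1 (sq_nonneg _))
    have h3 := mul_le_mul_of_nonneg_right hG (sub_nonneg.2 hcs)
    nlinarith
  have hSA : ∀ z, S (A z) = 0 := spec_zero A S hApos ‖gram T‖ key (norm_nonneg _)
  -- `A w = 0` implies `S w = 0`
  have hker : ∀ w, A w = 0 → S w = 0 := by
    intro w hw
    have hn0 : mom T w n = 0 := by
      change (⟪w, A w⟫_ℂ).re = 0
      rw [hw, inner_zero_right]; rfl
    have h1 : mom T w 1 = 0 := by
      rcases (mom_nonneg T w 1).eq_or_lt with h | h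
      · exact h.symm
      · have := (pos_of_pos (mom T w) (mom_nonneg T w) (mom_logconvex T hcomm hyp w) h n).1
        linarith
    have hT : ∀ i, T i w = 0 := by
      have e : mom T w 1 = ∑ i, ‖T i w‖ ^ 2 := by
        rw [mom, pow_one, Th_quad]
        refine Finset.sum_congr rfl fun i _ => ?_
        rw [show (1 : H →L[ℂ] H) (T i w) = T i w from rfl, inner_self_eq_norm_sq_to_K]
        norm_cast
      rw [e, Finset.sum_eq_zero_iff_of_nonneg (fun i _ => sq_nonneg _)] at h1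
      intro i
      have := h1 i (Finset.mem_univ _)
      exact norm_eq_zero.1 (pow_eq_zero_iff two_ne_zero |>.1 this)
    have hG : gram T w = 0 := by
      rw [gram, sum_app]
      refine Finset.sum_eq_zero fun i _ => ?_
      change star (T i) (T i w) = 0
      rw [hT i, map_zero]
    have hN : NN T w = 0 := by
      have : NN T w = Th T (gram T) w - gram T (gram T w) := rfl
      rw [this, hG, map_zero, sub_zero, Th_apply, sum_app]
      refine Finset.sum_eq_zero fun i _ => ?_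
      change star (T i) (gram T (T i w)) = 0
      rw [hT i, map_zero, map_zero]
    have := hSn w
    rw [hN, inner_zero_right] at this
    exact norm_eq_zero.1 (pow_eq_zero_iff two_ne_zero |>.1 this)
  have hstar : ∀ y, star S y = 0 := by
    intro y
    have h1 : A (star S y) = 0 := by
      have e : A * star S = 0 := by
        have : S * A = 0 := by ext z; exact hSA z
        have h2 := congrArg star this
        rwa [star_mul, hAsa.star_eq, star_zero] at h2
      have := congrArg (fun X : H →L[ℂ] H => X y) e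
      exact this
    have h2 := hker _ h1
    have h3 : ⟪star S y, star S y⟫_ℂ = 0 := by
      rw [inner_star, h2, inner_zero_left]
    exact inner_self_eq_zero.1 h3
  rw [hS]
  ext x
  change star S (S x) = 0
  exact hstar _

/-- **Theorem.** A commuting jointly hyponormal tuple with a spherically quasinormal power is
spherically quasinormal. -/
theorem main (T : ι → H →L[ℂ] H) (hcomm : ∀ i j, T i * T j = T j * T i)
    (hyp : JointlyHyponormal T) (n : ℕ) (hn : 1 ≤ n)
    (hq : SphericallyQuasinormal (tuplePow T n)) : SphericallyQuasinormal T := by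
  have hN := NN_eq_zero T hcomm hyp n hn hq
  set M : ι → ι → H →L[ℂ] H := fun i j => star (T j) * T i - T i * star (T j) with hM
  have hMs : ∀ i j, star (M i j) = M j i := by
    intro i j
    simp only [hM, star_sub, star_mul, star_star]
  have hD : ∀ z, ∀ i, DD T i z = 0 := by
    intro z
    set B : (ι → H) → (ι → H) → ℂ := fun u v => ∑ i, ∑ j, ⟪u i, M i j (v j)⟫_ℂ with hB
    set v : ι → H := fun i => DD T i z with hv
    set u : ι → H := fun i => T i z with hu
    set s : ℝ := ∑ i, ‖v i‖ ^ 2 with hs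
    have b1 : B v u = (s : ℂ) := by
      have := form_eq T hcomm z v
      change ∑ i, ∑ j, ⟪v i, M i j (T j z)⟫_ℂ = _ at this
      change ∑ i, ∑ j, ⟪v i, M i j (T j z)⟫_ℂ = _
      rw [this, hs]
      push_cast
      refine Finset.sum_congr rfl fun i _ => ?_
      change ⟪v i, v i⟫_ℂ = _
      rw [inner_self_eq_norm_sq_to_K]
      rfl
    have b2 : B u v = (s : ℂ) := by
      have : (starRingEnd ℂ) (B v u) = B u v := by
        simp only [hB, map_sum]
        rw [Finset.sum_comm]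
        refine Finset.sum_congr rfl fun j _ => Finset.sum_congr rfl fun i _ => ?_
        rw [inner_conj_symm, ← hMs j i]
        exact ContinuousLinearMap.adjoint_inner_left (M j i) (v i) (u j)
      rw [← this, b1, Complex.conj_ofReal]
    have b3 : B u u = 0 := by
      have := form_eq T hcomm z u
      change ∑ i, ∑ j, ⟪u i, M i j (u j)⟫_ℂ = _ at this
      change ∑ i, ∑ j, ⟪u i, M i j (u j)⟫_ℂ = _
      rw [this, hu]
      simp only
      rw [NN_quad, hN]
      simp
    have hexp : ∀ t : ℝ, B (fun i => u i + (t : ℂ) • v i) (fun i => u i + (t : ℂ) • v i)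
        = B u u + (t : ℂ) * B v u + (t : ℂ) * B u v + (t : ℂ) ^ 2 * B v v := by
      intro t
      simp only [hB, Finset.mul_sum, ← Finset.sum_add_distrib]
      refine Finset.sum_congr rfl fun i _ => Finset.sum_congr rfl fun j _ => ?_
      rw [map_add, map_smul, inner_add_left, inner_add_right, inner_add_right,
        inner_smul_left, inner_smul_left, inner_smul_right, inner_smul_right,
        Complex.conj_ofReal]
      ring
    have hpos : ∀ t : ℝ, 0 ≤ 2 * t * s + t ^ 2 * (B v v).re := by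
      intro t
      have h1 := hyp (fun i => u i + (t : ℂ) • v i)
      change 0 ≤ B (fun i => u i + (t : ℂ) • v i) (fun i => u i + (t : ℂ) • v i) at h1
      rw [hexp, b1, b2, b3] at h1
      have h2 := (Complex.le_def.1 h1).1
      simp only [Complex.zero_re, Complex.add_re, Complex.re_ofReal_mul, Complex.ofReal_re,
        zero_add] at h2
      have e : (((t : ℂ) ^ 2) * B v v).re = t ^ 2 * (B v v).re := by
        rw [← Complex.ofReal_pow, Complex.re_ofReal_mul]
      rw [e] at h2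
      linarith
    have hs0 : 0 ≤ s := Finset.sum_nonneg fun i _ => sq_nonneg _
    have hsz : s = 0 := by
      by_contra hne
      have hsp : 0 < s := lt_of_le_of_ne hs0 (Ne.symm hne)
      set c : ℝ := (B v v).re with hc
      have h1 := hpos (-(s / (|c| + 1)))
      have hc1 : 0 < |c| + 1 := by positivity
      have h2 : (-(s / (|c| + 1))) ^ 2 * c ≤ (s / (|c| + 1)) * s := by
        have : (-(s / (|c| + 1))) ^ 2 * c ≤ (s / (|c| + 1)) ^ 2 * (|c| + 1) := by
          rw [neg_sq]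
          exact mul_le_mul_of_nonneg_left (by linarith [le_abs_self c]) (sq_nonneg _)
        refine this.trans (le_of_eq ?_)
        field_simp
      have h3 : 0 < (s / (|c| + 1)) * s := by positivity
      nlinarith
    intro i
    have : ‖v i‖ ^ 2 = 0 := by
      rw [hs, Finset.sum_eq_zero_iff_of_nonneg (fun i _ => sq_nonneg _)] at hsz
      exact hsz i (Finset.mem_univ _)
    exact norm_eq_zero.1 (pow_eq_zero_iff two_ne_zero |>.1 this)
  intro i
  ext z
  have := hD z i
  rw [DD] at this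
  have h2 : (gram T * T i) z - (T i * gram T) z = 0 := this
  exact (sub_eq_zero.1 h2).symm

end Pool.Agent.X297.HR
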