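import Mathlib

open scoped InnerProductSpace ComplexOrder

namespace Pool.Agent.X297.HR

variable {H : Type*} [NormedAddCommGroup H] [InnerProductSpace ℂ H] [CompleteSpace H]

/-- clamp to `[0,1]` -/
noncomputable def cl (s : ℝ) : ℝ := max 0 (min 1 s)

lemma cl_cont : Continuous cl := by unfold cl; fun_prop

lemma cl_nonneg (s : ℝ) : 0 ≤ cl s := le_max_left _ _

lemma cl_le_one (s : ℝ) : cl s ≤ 1 := max_le zero_le_one (min_le_left _ _)

lemma cl_mono {s t : ℝ} (h : s ≤ t) : cl s ≤ cl t := max_le_max le_rfl (min_le_min le_rfl h)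

lemma cl_eq_one {s : ℝ} (h : 1 ≤ s) : cl s = 1 := by
  unfold cl; rw [min_eq_left h]; simp

lemma cl_eq_zero {s : ℝ} (h : s ≤ 0) : cl s = 0 := by
  unfold cl; rw [min_eq_right (by linarith)]; simp [h]

/-- hat functions with step `1/r` -/
noncomputable def hat (r : ℝ) (i : ℕ) (t : ℝ) : ℝ := cl (r * t - i + 1) - cl (r * t - i)

lemma hat_cont (r : ℝ) (i : ℕ) : Continuous (hat r i) := by
  unfold hat
  exact (cl_cont.comp (by fun_prop)).sub (cl_cont.comp (by fun_prop))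

lemma hat_nonneg (r : ℝ) (i : ℕ) (t : ℝ) : 0 ≤ hat r i t :=
  sub_nonneg.2 (cl_mono (by linarith))

lemma hat_le_one (r : ℝ) (i : ℕ) (t : ℝ) : hat r i t ≤ 1 := by
  unfold hat
  have := cl_le_one (r * t - i + 1)
  have := cl_nonneg (r * t - i)
  linarith

lemma hat_supp {r : ℝ} {i : ℕ} {t : ℝ} (h : hat r i t ≠ 0) :
    (i : ℝ) - 1 ≤ r * t ∧ r * t ≤ i + 1 := by
  constructor
  · by_contra hc
    push Not at hc
    apply h
    unfold hat
    rw [cl_eq_zero (by linarith), cl_eq_zero (by linarith), sub_zero]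
  · by_contra hc
    push Not at hc
    apply h
    unfold hat
    rw [cl_eq_one (by linarith), cl_eq_one (by linarith), sub_self]

lemma hat_sum (r : ℝ) (m : ℕ) (t : ℝ) (h0 : 0 ≤ r * t) (h1 : r * t ≤ m) :
    ∑ i ∈ Finset.range (m + 1), hat r i t = 1 := by
  have : ∀ n : ℕ, ∑ i ∈ Finset.range (n + 1), hat r i t = cl (r * t + 1) - cl (r * t - n) := by
    intro n
    induction n with
    | zero => simp [hat]
    | succ n ih =>
      rw [Finset.sum_range_succ, ih]
      unfold hat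
      push_cast
      rw [show r * t - ((n : ℝ) + 1) + 1 = r * t - n by ring]
      ring
  rw [this, cl_eq_one (by linarith), cl_eq_zero (by linarith), sub_zero]

/-- the quadratic form of a nonnegative operator -/
lemma re_inner_nonneg {X : H →L[ℂ] H} (h : 0 ≤ X) (x : H) : 0 ≤ (⟪x, X x⟫_ℂ).re :=
  ((ContinuousLinearMap.nonneg_iff_isPositive X).1 h).re_inner_nonneg_right x

lemma norm_sq_cfc (A : H →L[ℂ] H) (f : ℝ → ℝ) (hf : Continuous f) (z : H) :
    ‖(cfc f A) z‖ ^ 2 = (⟪z, (cfc (fun t => f t * f t) A) z⟫_ℂ).re := by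
  rw [cfc_mul f f A hf.continuousOn hf.continuousOn]
  have hs : IsSelfAdjoint (cfc f A) := cfc_predicate f A
  have e : (cfc f A * cfc f A) z = (cfc f A) ((cfc f A) z) := rfl
  rw [e, ← ContinuousLinearMap.adjoint_inner_left,
    show ContinuousLinearMap.adjoint (cfc f A) = cfc f A from hs]
  rw [inner_self_eq_norm_sq_to_K]
  norm_cast

/-- domination -/
lemma norm_cfc_le (A : H →L[ℂ] H) (f g : ℝ → ℝ) (hf : Continuous f) (hg : Continuous g)
    (h : ∀ t ∈ spectrum ℝ A, |f t| ≤ |g t|) (z : H) : ‖(cfc f A) z‖ ≤ ‖(cfc g A) z‖ := by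
  have h1 : (0 : H →L[ℂ] H) ≤ cfc (fun t => g t * g t - f t * f t) A := by
    apply cfc_nonneg
    intro t ht
    have := mul_self_le_mul_self (abs_nonneg _) (h t ht)
    rw [abs_mul_abs_self, abs_mul_abs_self] at this
    linarith
  have h2 := re_inner_nonneg h1 z
  rw [cfc_sub (fun t => g t * g t) (fun t => f t * f t) A (by fun_prop) (by fun_prop)] at h2
  have e : (cfc (fun t => g t * g t) A - cfc (fun t => f t * f t) A) z
      = cfc (fun t => g t * g t) A z - cfc (fun t => f t * f t) A z := rfl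
  rw [e, inner_sub_right, Complex.sub_re, ← norm_sq_cfc A g hg,
    ← norm_sq_cfc A f hf] at h2
  nlinarith [norm_nonneg ((cfc g A) z), norm_nonneg ((cfc f A) z)]

/-- the localisation step -/
lemma loc (A S : H →L[ℂ] H) (K : ℝ)
    (h : ∀ x : H, ‖S x‖ ^ 2 * (⟪x, A x⟫_ℂ).re ^ 2 ≤
      K * ‖x‖ ^ 2 * (‖x‖ ^ 2 * ‖A x‖ ^ 2 - (⟪x, A x⟫_ℂ).re ^ 2)) (hK : 0 ≤ K)
    (x : H) (l e : ℝ) (hl : 0 ≤ l) (he : 0 ≤ e) (h1 : ‖A x - (l : ℂ) • x‖ ≤ e * ‖x‖)
    (h2 : l * ‖x‖ ^ 2 ≤ (⟪x, A x⟫_ℂ).re) : ‖S x‖ ^ 2 * l ^ 2 ≤ K * e ^ 2 * ‖x‖ ^ 2 := by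
  rcases eq_or_ne x 0 with rfl | hx
  · simp
  have hx' : 0 < ‖x‖ := norm_pos_iff.2 hx
  set y := A x - (l : ℂ) • x with hy
  have hA : A x = y + (l : ℂ) • x := by rw [hy]; abel
  have ein : (⟪x, A x⟫_ℂ).re = (⟪x, y⟫_ℂ).re + l * ‖x‖ ^ 2 := by
    rw [hA, inner_add_right, inner_smul_right, inner_self_eq_norm_sq_to_K, Complex.add_re]
    congr 1
    rw [Complex.re_ofReal_mul]
    norm_cast
  have enorm : ‖A x‖ ^ 2 = ‖y‖ ^ 2 + 2 * (l * (⟪x, y⟫_ℂ).re) + l ^ 2 * ‖x‖ ^ 2 := by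
    have := @norm_add_sq ℂ H _ _ _ y ((l : ℂ) • x)
    rw [hA, this, inner_smul_right, norm_smul, ← inner_conj_symm]
    simp only [RCLike.re_to_complex, Complex.mul_re, Complex.conj_re, Complex.ofReal_re,
      Complex.ofReal_im, zero_mul, sub_zero, Complex.norm_real, Real.norm_eq_abs, mul_pow, sq_abs]
  have key := h x
  have var : ‖x‖ ^ 2 * ‖A x‖ ^ 2 - (⟪x, A x⟫_ℂ).re ^ 2 ≤ ‖x‖ ^ 2 * (e ^ 2 * ‖x‖ ^ 2) := by
    rw [enorm, ein]
    have h3 : ‖y‖ ^ 2 ≤ e ^ 2 * ‖x‖ ^ 2 := by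
      rw [← mul_pow]
      exact pow_le_pow_left₀ (norm_nonneg _) h1 2
    nlinarith [sq_nonneg (⟪x, y⟫_ℂ).re, mul_le_mul_of_nonneg_left h3 (sq_nonneg ‖x‖)]
  have lower : (l * ‖x‖ ^ 2) ^ 2 ≤ (⟪x, A x⟫_ℂ).re ^ 2 :=
    pow_le_pow_left₀ (by positivity) h2 2
  have fin : (‖S x‖ ^ 2 * l ^ 2) * ‖x‖ ^ 4 ≤ (K * e ^ 2 * ‖x‖ ^ 2) * ‖x‖ ^ 4 := by
    calc (‖S x‖ ^ 2 * l ^ 2) * ‖x‖ ^ 4 = ‖S x‖ ^ 2 * (l * ‖x‖ ^ 2) ^ 2 := by ring
      _ ≤ ‖S x‖ ^ 2 * (⟪x, A x⟫_ℂ).re ^ 2 := mul_le_mul_of_nonneg_left lower (sq_nonneg _)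
      _ ≤ _ := key
      _ ≤ K * ‖x‖ ^ 2 * (‖x‖ ^ 2 * (e ^ 2 * ‖x‖ ^ 2)) :=
          mul_le_mul_of_nonneg_left var (by positivity)
      _ = _ := by ring
  exact le_of_mul_le_mul_right fin (by positivity)

/-- the bound for one hat function -/
lemma hat_bound (A S : H →L[ℂ] H) (hA : 0 ≤ A) (K : ℝ)
    (h : ∀ x : H, ‖S x‖ ^ 2 * (⟪x, A x⟫_ℂ).re ^ 2 ≤
      K ^ 2 * ‖x‖ ^ 2 * (‖x‖ ^ 2 * ‖A x‖ ^ 2 - (⟪x, A x⟫_ℂ).re ^ 2)) (hK : 0 ≤ K)
    (r : ℝ) (hr : 0 < r) (i : ℕ) (z : H) :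
    ‖S (cfc (hat r i) A (A z))‖ ≤ (6 * K + 2 * ‖S‖) / r * ‖cfc (hat r i) A z‖ := by
  have hsa : IsSelfAdjoint A := IsSelfAdjoint.of_nonneg hA
  have hc := hat_cont r i
  have hsp : ∀ t ∈ spectrum ℝ A, 0 ≤ t := fun t ht => spectrum_nonneg_of_nonneg hA ht
  have eA : ∀ (f : ℝ → ℝ), Continuous f → ∀ w : H, A (cfc f A w) = cfc (fun t => t * f t) A w := by
    intro f hf w
    rw [cfc_mul (fun t => t) f A (by fun_prop) hf.continuousOn, cfc_id' ℝ A]
    rfl
  have eA' : ∀ (f : ℝ → ℝ), Continuous f → ∀ w : H, cfc f A (A w) = cfc (fun t => f t * t) A w := by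
    intro f hf w
    rw [cfc_mul f (fun t => t) A hf.continuousOn (by fun_prop), cfc_id' ℝ A]
    rfl
  -- `‖P A z‖ ≤ (i+1)/r ‖P z‖`
  have h1 : ‖cfc (hat r i) A (A z)‖ ≤ (i + 1) / r * ‖cfc (hat r i) A z‖ := by
    rw [eA' _ hc]
    have h2 := norm_cfc_le A (fun t => hat r i t * t) (fun t => (((i : ℝ) + 1) / r) * hat r i t)
      (by fun_prop) (by fun_prop) (by
        intro t ht
        rw [abs_mul, abs_mul, mul_comm]
        by_cases h0 : hat r i t = 0
        · simp [h0]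
        · have := (hat_supp h0).2
          refine mul_le_mul_of_nonneg_right ?_ (abs_nonneg _)
          rw [abs_of_nonneg (hsp t ht), abs_of_nonneg (by positivity), le_div_iff₀ hr]
          linarith) z
    refine h2.trans (le_of_eq ?_)
    rw [cfc_const_mul _ _ A hc.continuousOn]
    have e : (((((i : ℝ) + 1) / r) • cfc (hat r i) A : H →L[ℂ] H)) z
        = (((i : ℝ) + 1) / r) • (cfc (hat r i) A z) := rfl
    rw [e, norm_smul, Real.norm_of_nonneg (by positivity)]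
  rcases Nat.lt_or_ge i 2 with hi | hi
  · have hi' : (i : ℝ) + 1 ≤ 2 := by
      have : (i : ℝ) ≤ 1 := by exact_mod_cast Nat.lt_succ_iff.1 hi
      linarith
    calc ‖S (cfc (hat r i) A (A z))‖ ≤ ‖S‖ * ‖cfc (hat r i) A (A z)‖ := S.le_opNorm _
      _ ≤ ‖S‖ * ((i + 1) / r * ‖cfc (hat r i) A z‖) := by gcongr
      _ ≤ ‖S‖ * (2 / r * ‖cfc (hat r i) A z‖) := by gcongr
      _ = (2 * ‖S‖) / r * ‖cfc (hat r i) A z‖ := by ring
      _ ≤ _ := by gcongr; linarith
  · have hi' : (2 : ℝ) ≤ i := by exact_mod_cast hi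
    set w := A z with hw
    set x := cfc (hat r i) A w with hx
    have h3 : ‖A x - (((i - 1) / r : ℝ) : ℂ) • x‖ ≤ (2 / r) * ‖x‖ := by
      have e1 : A x - (((i - 1) / r : ℝ) : ℂ) • x
          = cfc (fun t => t * hat r i t - ((i - 1) / r : ℝ) * hat r i t) A w := by
        rw [cfc_sub (fun t => t * hat r i t) (fun t => ((i - 1) / r : ℝ) * hat r i t) A
          (by fun_prop) (by fun_prop), cfc_const_mul _ _ A hc.continuousOn, hx, eA _ hc]
        rfl
      have e2 : (2 / r) * ‖x‖ = ‖cfc (fun t => (2 / r) * hat r i t) A w‖ := by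
        rw [cfc_const_mul _ _ A hc.continuousOn]
        have e : (((2 / r) • cfc (hat r i) A : H →L[ℂ] H)) w
          = ((2 / r)) • (cfc (hat r i) A w) := rfl
        rw [e, norm_smul, Real.norm_of_nonneg (by positivity)]
      rw [e1, e2]
      apply norm_cfc_le A _ _ (by fun_prop) (by fun_prop)
      intro t _
      rw [← sub_mul, abs_mul, abs_mul]
      by_cases h0 : hat r i t = 0
      · simp [h0]
      · have h4 := hat_supp h0
        refine mul_le_mul_of_nonneg_right ?_ (abs_nonneg _)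
        have a1 : (i - 1) / r ≤ t := by rw [div_le_iff₀ hr]; linarith
        have a2 : t ≤ (i - 1) / r + 2 / r := by
          rw [← add_div, le_div_iff₀ hr]; linarith
        rw [abs_of_nonneg (by linarith), abs_of_nonneg (by positivity)]
        linarith
    have h5 : ((i - 1) / r : ℝ) * ‖x‖ ^ 2 ≤ (⟪x, A x⟫_ℂ).re := by
      have h6 : (0 : H →L[ℂ] H) ≤ cfc (fun t => hat r i t * (t * hat r i t)
          - ((i - 1) / r : ℝ) * (hat r i t * hat r i t)) A := by
        apply cfc_nonneg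
        intro t ht
        by_cases h0 : hat r i t = 0
        · simp [h0]
        · have h4 := hat_supp h0
          have a1 : (i - 1) / r ≤ t := by rw [div_le_iff₀ hr]; linarith
          have := mul_le_mul_of_nonneg_right a1 (mul_self_nonneg (hat r i t))
          linarith
      have h7 := re_inner_nonneg h6 w
      rw [cfc_sub (fun t => hat r i t * (t * hat r i t))
        (fun t => ((i - 1) / r : ℝ) * (hat r i t * hat r i t)) A (by fun_prop) (by fun_prop),
        cfc_const_mul _ (fun t => hat r i t * hat r i t) A (by fun_prop),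
        cfc_mul (hat r i) (fun t => t * hat r i t) A hc.continuousOn (by fun_prop)] at h7
      have e3 : (cfc (hat r i) A * cfc (fun t => t * hat r i t) A
          - ((i - 1) / r : ℝ) • cfc (fun t => hat r i t * hat r i t) A) w
          = cfc (hat r i) A (cfc (fun t => t * hat r i t) A w)
            - ((((i - 1) / r : ℝ)) : ℂ) • (cfc (fun t => hat r i t * hat r i t) A w) := rfl
      have hs : IsSelfAdjoint (cfc (hat r i) A) := cfc_predicate _ A
      rw [e3, inner_sub_right, inner_smul_right, Complex.sub_re, Complex.re_ofReal_mul,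
        ← norm_sq_cfc A _ hc, ← ContinuousLinearMap.adjoint_inner_left,
        show ContinuousLinearMap.adjoint (cfc (hat r i) A) = cfc (hat r i) A from hs,
        ← eA _ hc, ← hx] at h7
      linarith
    have h8 := loc A S (K ^ 2) h (by positivity) x ((i - 1) / r) (2 / r)
      (div_nonneg (by linarith) hr.le) (by positivity) h3 h5
    -- take square roots
    have h9 : ‖S x‖ * ((i - 1) / r) ≤ K * (2 / r) * ‖x‖ := by
      refine (sq_le_sq₀ (mul_nonneg (norm_nonneg _) (div_nonneg (by linarith) hr.le))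
        (by positivity)).1 ?_
      calc (‖S x‖ * ((i - 1) / r)) ^ 2 = ‖S x‖ ^ 2 * ((i - 1) / r) ^ 2 := by ring
        _ ≤ _ := h8
        _ = _ := by ring
    have h10 : ‖S x‖ * (i - 1) ≤ 2 * K * ‖x‖ := by
      have := mul_le_mul_of_nonneg_right h9 hr.le
      have e4 : ‖S x‖ * ((i - 1) / r) * r = ‖S x‖ * (i - 1) := by field_simp
      have e5 : K * (2 / r) * ‖x‖ * r = 2 * K * ‖x‖ := by field_simp
      rwa [e4, e5] at this
    have h11 : ‖S x‖ * (i - 1) ≤ (6 * K / r * ‖cfc (hat r i) A z‖) * (i - 1) := by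
      calc ‖S x‖ * (i - 1) ≤ 2 * K * ‖x‖ := h10
        _ ≤ 2 * K * ((i + 1) / r * ‖cfc (hat r i) A z‖) := by gcongr
        _ ≤ 2 * K * ((3 * (i - 1)) / r * ‖cfc (hat r i) A z‖) := by
            gcongr
            linarith
        _ = _ := by ring
    have h12 := le_of_mul_le_mul_right h11 (by linarith)
    refine h12.trans ?_
    gcongr
    have := norm_nonneg S
    linarith

/-- the spectral lemma: a variance bound forces `S` to vanish on the range of `A` -/
theorem spec_zero (A S : H →L[ℂ] H) (hA : 0 ≤ A) (K : ℝ)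
    (h : ∀ x : H, ‖S x‖ ^ 2 * (⟪x, A x⟫_ℂ).re ^ 2 ≤
      K ^ 2 * ‖x‖ ^ 2 * (‖x‖ ^ 2 * ‖A x‖ ^ 2 - (⟪x, A x⟫_ℂ).re ^ 2)) (hK : 0 ≤ K) (z : H) :
    S (A z) = 0 := by
  have hsa : IsSelfAdjoint A := IsSelfAdjoint.of_nonneg hA
  set L : ℝ := ‖A‖ * ‖(1 : H →L[ℂ] H)‖ + 1 with hL
  have hLpos : 0 < L := by positivity
  have hsp : ∀ t ∈ spectrum ℝ A, 0 ≤ t ∧ t ≤ L := by
    intro t ht
    refine ⟨spectrum_nonneg_of_nonneg hA ht, ?_⟩
    have := spectrum.norm_le_norm_mul_of_mem ht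
    have := (le_abs_self t).trans this
    linarith
  set C : ℝ := 6 * K + 2 * ‖S‖ with hC
  have hC0 : 0 ≤ C := by positivity
  have main : ∀ m : ℕ, 1 ≤ m → ‖S (A z)‖ ^ 2 * m ≤ 2 * (C * L) ^ 2 * ‖z‖ ^ 2 := by
    intro m hm
    have hm' : (1 : ℝ) ≤ m := by exact_mod_cast hm
    set r : ℝ := m / L with hr
    have hrpos : 0 < r := by positivity
    have hrt : ∀ t ∈ spectrum ℝ A, 0 ≤ r * t ∧ r * t ≤ m := by
      intro t ht
      obtain ⟨a, b⟩ := hsp t ht
      refine ⟨by positivity, ?_⟩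
      calc r * t ≤ r * L := by gcongr
        _ = m := by rw [hr]; field_simp
    have hone : ∑ i ∈ Finset.range (m + 1), cfc (hat r i) A = 1 := by
      rw [← cfc_sum (fun i => hat r i) A (Finset.range (m + 1))
        (fun i _ => (hat_cont r i).continuousOn)]
      rw [← cfc_const_one ℝ A]
      apply cfc_congr
      intro t ht
      simp only [Finset.sum_apply]
      exact hat_sum r m t (hrt t ht).1 (hrt t ht).2
    have hsumv : ∀ w : H, ∑ i ∈ Finset.range (m + 1), cfc (hat r i) A w = w := by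
      intro w
      have := congrArg (fun X : H →L[ℂ] H => X w) hone
      simpa using this
    have e1 : S (A z) = ∑ i ∈ Finset.range (m + 1), S (cfc (hat r i) A (A z)) := by
      rw [← map_sum, hsumv]
    have e2 : ‖S (A z)‖ ≤ C / r * ∑ i ∈ Finset.range (m + 1), ‖cfc (hat r i) A z‖ := by
      rw [e1, Finset.mul_sum]
      exact (norm_sum_le _ _).trans (Finset.sum_le_sum fun i _ =>
        hat_bound A S hA K h hK r hrpos i z)
    have e3 : ∑ i ∈ Finset.range (m + 1), ‖cfc (hat r i) A z‖ ^ 2 ≤ ‖z‖ ^ 2 := by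
      calc ∑ i ∈ Finset.range (m + 1), ‖cfc (hat r i) A z‖ ^ 2
          ≤ ∑ i ∈ Finset.range (m + 1), (⟪z, cfc (hat r i) A z⟫_ℂ).re := by
            apply Finset.sum_le_sum
            intro i _
            have hc := hat_cont r i
            have h6 : (0 : H →L[ℂ] H) ≤ cfc (fun t => hat r i t - hat r i t * hat r i t) A := by
              apply cfc_nonneg
              intro t _
              have a := hat_nonneg r i t
              have b := hat_le_one r i t
              nlinarith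
            have h7 := re_inner_nonneg h6 z
            rw [cfc_sub (hat r i) (fun t => hat r i t * hat r i t) A (by fun_prop)
              (by fun_prop)] at h7
            have e : (cfc (hat r i) A - cfc (fun t => hat r i t * hat r i t) A) z
              = cfc (hat r i) A z - cfc (fun t => hat r i t * hat r i t) A z := rfl
            rw [e, inner_sub_right, Complex.sub_re, ← norm_sq_cfc A _ hc] at h7
            linarith
        _ = (⟪z, ∑ i ∈ Finset.range (m + 1), cfc (hat r i) A z⟫_ℂ).re := by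
            rw [inner_sum, Complex.re_sum]
        _ = ‖z‖ ^ 2 := by
            rw [hsumv, inner_self_eq_norm_sq_to_K]
            norm_cast
    have e4 : (∑ i ∈ Finset.range (m + 1), ‖cfc (hat r i) A z‖) ^ 2 ≤ (m + 1) * ‖z‖ ^ 2 := by
      have := sq_sum_le_card_mul_sum_sq (s := Finset.range (m + 1))
        (f := fun i => ‖cfc (hat r i) A z‖)
      rw [Finset.card_range] at this
      push_cast at this
      exact this.trans (mul_le_mul_of_nonneg_left e3 (by positivity))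
    have e5 : ‖S (A z)‖ ^ 2 ≤ (C / r) ^ 2 * ((m + 1) * ‖z‖ ^ 2) := by
      calc ‖S (A z)‖ ^ 2 ≤ (C / r * ∑ i ∈ Finset.range (m + 1), ‖cfc (hat r i) A z‖) ^ 2 :=
            pow_le_pow_left₀ (norm_nonneg _) e2 2
        _ = (C / r) ^ 2 * (∑ i ∈ Finset.range (m + 1), ‖cfc (hat r i) A z‖) ^ 2 := by ring
        _ ≤ _ := mul_le_mul_of_nonneg_left e4 (sq_nonneg _)
    calc ‖S (A z)‖ ^ 2 * m ≤ ((C / r) ^ 2 * ((m + 1) * ‖z‖ ^ 2)) * m := by gcongr
      _ ≤ ((C / r) ^ 2 * ((m + m) * ‖z‖ ^ 2)) * m := by gcongr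
      _ = _ := by rw [hr]; field_simp; ring
  have hz : ‖S (A z)‖ ^ 2 = 0 := by
    by_contra hne
    have hpos : 0 < ‖S (A z)‖ ^ 2 := lt_of_le_of_ne (sq_nonneg _) (Ne.symm hne)
    obtain ⟨m, hm⟩ := exists_nat_gt ((2 * (C * L) ^ 2 * ‖z‖ ^ 2) / ‖S (A z)‖ ^ 2)
    have h1 := main (m + 1) (by omega)
    rw [div_lt_iff₀ hpos] at hm
    push_cast at h1
    nlinarith
  exact norm_eq_zero.1 (pow_eq_zero_iff (two_ne_zero) |>.1 hz)

end Pool.Agent.X297.HR
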